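import Pool.Agent.Helper36_X1.Stmts3

/-!
# LFT: lifting a root group datum to a central extension of order prime to `ℓ`
-/

open scoped BigOperators

set_option linter.unusedSectionVars false

noncomputable section

namespace Pool.Agent.PP.X1.H77

open Pool.Agent.PP.X1

section lf

variable {S M : Type} [Group S] [Group M]

/-- the group generated by the elements of `ℓ`-power order over `P` -/
def lf (ℓ : ℕ) (π : M →* S) (P : Subgroup S) : Subgroup M :=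
  Subgroup.closure {x | π x ∈ P ∧ ∃ k : ℕ, x ^ (ℓ ^ k) = 1}

variable {ℓ : ℕ} {π : M →* S}

theorem lf_mono {P Q : Subgroup S} (h : P ≤ Q) : lf ℓ π P ≤ lf ℓ π Q :=
  Subgroup.closure_mono fun _ hx => ⟨h hx.1, hx.2⟩

theorem lf_conj {P Q : Subgroup S} {g : M} (h : ∀ y ∈ P, π g * y * (π g)⁻¹ ∈ Q) {x : M}
    (hx : x ∈ lf ℓ π P) : g * x * g⁻¹ ∈ lf ℓ π Q := by
  have h1 : lf ℓ π P ≤ (lf ℓ π Q).comap (MulAut.conj g).toMonoidHom := by
    refine (Subgroup.closure_le _).mpr ?_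
    rintro y ⟨hy, k, hk⟩
    refine Subgroup.subset_closure ⟨?_, k, ?_⟩
    · have := h _ hy
      simpa using this
    · change (g * y * g⁻¹) ^ (ℓ ^ k) = 1
      rw [conj_pow, hk, mul_one, mul_inv_cancel]
  exact h1 hx

variable [Fact ℓ.Prime] [Finite S] [Finite M]

/-- an element of `ℓ`-power order of a group of order prime to `ℓ` is trivial -/
theorem eq_one_of_cop {Z : Subgroup M} (hZ : ¬ ℓ ∣ Nat.card Z) {x : M} (hx : x ∈ Z) {k : ℕ}
    (hk : x ^ (ℓ ^ k) = 1) : x = 1 := by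
  have h1 : orderOf x ∣ ℓ ^ k := orderOf_dvd_of_pow_eq_one hk
  have h2 : orderOf x ∣ Nat.card Z := by
    have := orderOf_dvd_natCard (⟨x, hx⟩ : Z)
    rwa [Subgroup.orderOf_mk] at this
  obtain ⟨j, -, hj⟩ := (Nat.dvd_prime_pow (Fact.out : ℓ.Prime)).mp h1
  rcases Nat.eq_zero_or_pos j with rfl | hj0
  · rw [pow_zero] at hj
    exact orderOf_eq_one_iff.mp hj
  · exact absurd ((dvd_pow_self ℓ hj0.ne').trans (hj ▸ h2)) hZ

theorem exists_cmp (hc : π.ker ≤ Subgroup.center M) (hk : ¬ ℓ ∣ Nat.card π.ker)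
    (hs : Function.Surjective π) {P : Subgroup S} (hP : IsPGroup ℓ P) :
    ∃ O : Subgroup M, (∀ x, x ∈ O ↔ π x ∈ P ∧ ∃ k : ℕ, x ^ (ℓ ^ k) = 1) ∧
      ∀ y ∈ P, ∃ x ∈ O, π x = y := by
  have hℓ : ℓ.Prime := Fact.out
  let P' : Subgroup M := P.comap π
  let f : P' →* S := π.comp P'.subtype
  have hr : f.range ≤ P := by
    rintro _ ⟨x, rfl⟩
    exact x.2
  have hpr : IsPGroup ℓ f.range := hP.to_le hr
  obtain ⟨n, hn⟩ := IsPGroup.iff_card.mp hpr
  have hker : f.ker.map P'.subtype ≤ π.ker := by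
    rintro _ ⟨x, hx, rfl⟩
    exact hx
  have hcard : Nat.card f.ker ∣ Nat.card π.ker := by
    rw [← Subgroup.card_map_of_injective (K := f.ker) (f := P'.subtype) P'.subtype_injective]
    exact Subgroup.card_dvd_of_le hker
  have hcop : Nat.Coprime (Nat.card f.ker) f.ker.index := by
    rw [Subgroup.index_ker, hn]
    refine Nat.Coprime.pow_right n ?_
    rw [Nat.coprime_comm, hℓ.coprime_iff_not_dvd]
    exact fun h => hk (h.trans hcard)
  obtain ⟨K, hK⟩ := Subgroup.exists_right_complement'_of_coprime hcop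
  have hdis := hK.disjoint
  have hdec : ∀ x : P', ∃ z ∈ f.ker, ∃ o ∈ K, x = z * o := by
    intro x
    obtain ⟨⟨⟨z, hz⟩, ⟨o, ho⟩⟩, h⟩ := hK.2 x
    exact ⟨z, hz, o, ho, h.symm⟩
  have hKp : ∀ o ∈ K, ∃ k : ℕ, o ^ (ℓ ^ k) = 1 := by
    intro o ho
    obtain ⟨k, hk1⟩ := hpr ⟨f o, ⟨o, rfl⟩⟩
    refine ⟨k, ?_⟩
    have h1 : f (o ^ (ℓ ^ k)) = 1 := by
      rw [map_pow]
      exact congrArg Subtype.val hk1
    have h2 : o ^ (ℓ ^ k) ∈ f.ker ⊓ K := ⟨h1, pow_mem ho _⟩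
    rwa [hdis.eq_bot, Subgroup.mem_bot] at h2
  refine ⟨K.map P'.subtype, ?_, ?_⟩
  · intro x
    constructor
    · rintro ⟨o, ho, rfl⟩
      refine ⟨o.2, ?_⟩
      obtain ⟨k, hk1⟩ := hKp o ho
      exact ⟨k, congrArg Subtype.val hk1⟩
    · rintro ⟨hx, k, hk1⟩
      obtain ⟨z, hz, o, ho, h⟩ := hdec ⟨x, hx⟩
      obtain ⟨j, hj⟩ := hKp o ho
      have hzc : (z : M) ∈ Subgroup.center M := hc hz
      have hcom : Commute (z : M) (o : M) := by
        have h3 := Subgroup.mem_center_iff.mp hzc (o : M)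
        exact h3.symm
      have hx' : x = (z : M) * (o : M) := congrArg Subtype.val h
      have ho1 : (o : M) ^ (ℓ ^ (k + j)) = 1 := by
        rw [pow_add, mul_comm, pow_mul, show (o : M) ^ (ℓ ^ j) = 1 from congrArg Subtype.val hj,
          one_pow]
      have hx1 : x ^ (ℓ ^ (k + j)) = 1 := by rw [pow_add, pow_mul, hk1, one_pow]
      have hz1 : (z : M) ^ (ℓ ^ (k + j)) = 1 := by
        rw [hx', hcom.mul_pow, ho1, mul_one] at hx1
        exact hx1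
      have hz2 : (z : M) = 1 := eq_one_of_cop hk hz hz1
      exact ⟨o, ho, by rw [hx', hz2, one_mul]; rfl⟩
  · intro y hy
    obtain ⟨x, rfl⟩ := hs y
    obtain ⟨z, hz, o, ho, h⟩ := hdec ⟨x, hy⟩
    refine ⟨o, ⟨o, ho, rfl⟩, ?_⟩
    have hx' : x = (z : M) * (o : M) := congrArg Subtype.val h
    have hz' : π (z : M) = 1 := hz
    rw [hx', map_mul, hz', one_mul]

theorem mem_lf (hc : π.ker ≤ Subgroup.center M) (hk : ¬ ℓ ∣ Nat.card π.ker)
    (hs : Function.Surjective π) {P : Subgroup S} (hP : IsPGroup ℓ P) {x : M} :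
    x ∈ lf ℓ π P ↔ π x ∈ P ∧ ∃ k : ℕ, x ^ (ℓ ^ k) = 1 := by
  obtain ⟨O, hO, -⟩ := exists_cmp hc hk hs hP
  have h1 : lf ℓ π P = O := by
    refine le_antisymm ((Subgroup.closure_le _).mpr fun y hy => (hO y).mpr hy) ?_
    intro y hy
    exact Subgroup.subset_closure ((hO y).mp hy)
  rw [h1, hO]

theorem map_lf (hc : π.ker ≤ Subgroup.center M) (hk : ¬ ℓ ∣ Nat.card π.ker)
    (hs : Function.Surjective π) {P : Subgroup S} (hP : IsPGroup ℓ P) :
    (lf ℓ π P).map π = P := by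
  refine le_antisymm ?_ ?_
  · rintro _ ⟨x, hx, rfl⟩
    exact ((mem_lf hc hk hs hP).mp hx).1
  · intro y hy
    obtain ⟨O, hO, hs'⟩ := exists_cmp hc hk hs hP
    obtain ⟨x, hx, rfl⟩ := hs' y hy
    exact ⟨x, (mem_lf hc hk hs hP).mpr ((hO x).mp hx), rfl⟩

theorem lf_inj (hc : π.ker ≤ Subgroup.center M) (hk : ¬ ℓ ∣ Nat.card π.ker)
    (hs : Function.Surjective π) {P : Subgroup S} (hP : IsPGroup ℓ P) {x : M}
    (hx : x ∈ lf ℓ π P) (h1 : π x = 1) : x = 1 := by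
  obtain ⟨-, k, hk1⟩ := (mem_lf hc hk hs hP).mp hx
  exact eq_one_of_cop hk h1 hk1

theorem lf_pgrp (hc : π.ker ≤ Subgroup.center M) (hk : ¬ ℓ ∣ Nat.card π.ker)
    (hs : Function.Surjective π) {P : Subgroup S} (hP : IsPGroup ℓ P) :
    IsPGroup ℓ (lf ℓ π P) := by
  rintro ⟨x, hx⟩
  obtain ⟨-, k, hk1⟩ := (mem_lf hc hk hs hP).mp hx
  exact ⟨k, Subtype.ext hk1⟩

end lf

section geo

variable {ℓ : ℕ} [Fact ℓ.Prime] {S : Type} [Group S] [Finite S]

theorem pos_inner {m : ℕ} {b c : EuclideanSpace ℝ (Fin m)} (hb : b ≠ 0) (hc : c ≠ 0)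
    (hbc : ∀ s : ℝ, 0 < s → c ≠ -(s • b)) :
    (0 : ℝ) < inner ℝ (‖b‖⁻¹ • b + ‖c‖⁻¹ • c) b ∧
      (0 : ℝ) < inner ℝ (‖b‖⁻¹ • b + ‖c‖⁻¹ • c) c := by
  have hb0 : 0 < ‖b‖ := norm_pos_iff.mpr hb
  have hc0 : 0 < ‖c‖ := norm_pos_iff.mpr hc
  have hu : ‖‖b‖⁻¹ • b‖ = 1 := by
    rw [norm_smul, norm_inv, norm_norm, inv_mul_cancel₀ hb0.ne']
  have hv : ‖‖c‖⁻¹ • c‖ = 1 := by
    rw [norm_smul, norm_inv, norm_norm, inv_mul_cancel₀ hc0.ne']
  set u := ‖b‖⁻¹ • b with hu'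
  set v := ‖c‖⁻¹ • c with hv'
  have hb1 : b = ‖b‖ • u := by rw [hu', smul_smul, mul_inv_cancel₀ hb0.ne', one_smul]
  have hc1 : c = ‖c‖ • v := by rw [hv', smul_smul, mul_inv_cancel₀ hc0.ne', one_smul]
  have hne : u + v ≠ 0 := by
    intro h
    have hv2 : v = -u := by
      rw [add_comm] at h
      exact eq_neg_of_add_eq_zero_left h
    refine hbc (‖c‖ * ‖b‖⁻¹) (by positivity) ?_
    calc c = ‖c‖ • v := hc1
      _ = ‖c‖ • (-u) := by rw [hv2]
      _ = -((‖c‖ * ‖b‖⁻¹) • b) := by rw [hu', smul_neg, smul_smul]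
  have hsq : 0 < ‖u + v‖ ^ 2 := by
    have := norm_pos_iff.mpr hne
    positivity
  rw [norm_add_sq_real, hu, hv] at hsq
  have h1 : (0 : ℝ) < inner ℝ (u + v) u := by
    rw [inner_add_left, real_inner_self_eq_norm_sq, hu, real_inner_comm]
    linarith
  have h2 : (0 : ℝ) < inner ℝ (u + v) v := by
    rw [inner_add_left, real_inner_self_eq_norm_sq, hv]
    linarith
  constructor
  · have h3 : (inner ℝ (u + v) b : ℝ) = ‖b‖ * inner ℝ (u + v) u := by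
      conv_lhs => rw [hb1]
      rw [real_inner_smul_right]
    rw [h3]
    exact mul_pos hb0 h1
  · have h3 : (inner ℝ (u + v) c : ℝ) = ‖c‖ * inner ℝ (u + v) v := by
      conv_lhs => rw [hc1]
      rw [real_inner_smul_right]
    rw [h3]
    exact mul_pos hc0 h2

theorem pos_of_inner (R : RGD ℓ S) {η : R.E} {w : List (Fin R.r)}
    (hw : ∀ i, (0 : ℝ) ≤ inner ℝ (R.sw w η) (R.a i)) {d : R.E} (hd : d ∈ R.Φ)
    (h : (0 : ℝ) < inner ℝ η d) : R.sw w d ∈ R.pos := by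
  rcases R.pos_or_neg (R.sw_mem (w := w) hd) with h1 | h1
  · exact h1
  · exfalso
    obtain ⟨-, k, hk, hk1⟩ := h1
    have h2 : (0 : ℝ) ≤ inner ℝ (R.sw w η) (-R.sw w d) := by
      rw [hk1, inner_sum]
      refine Finset.sum_nonneg fun i _ => ?_
      rw [real_inner_smul_right]
      exact mul_nonneg (hk i) (hw i)
    rw [inner_neg_right, R.sw_inner] at h2
    linarith

theorem exists_pgrp (dom : DomStmt) (upg : UpgStmt) (clo : CloStmt) (R : RGD ℓ S) {b c : R.E}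
    (hb : b ∈ R.Φ) (hc : c ∈ R.Φ) (hbc : ∀ s : ℝ, 0 < s → c ≠ -(s • b)) :
    ∃ P : Subgroup S, IsPGroup ℓ P ∧ R.X b ≤ P ∧ R.X c ≤ P ∧
      ∀ d ∈ R.Φ, (∃ p q : ℝ, 1 ≤ p ∧ 1 ≤ q ∧ d = p • b + q • c) → R.X d ≤ P := by
  obtain ⟨h1, h2⟩ := pos_inner (R.ne0 b hb) (R.ne0 c hc) hbc
  set η : R.E := ‖b‖⁻¹ • b + ‖c‖⁻¹ • c with hη
  obtain ⟨w, hw⟩ := dom ℓ S R η
  have hU : IsPGroup ℓ R.U := upg ℓ S R R.pos (clo ℓ S R).1 subset_rfl
  have hX : ∀ d ∈ R.Φ, (0 : ℝ) < inner ℝ η d →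
      R.X d ≤ R.U.comap (MulAut.conj (R.nw w)).toMonoidHom := by
    intro d hd h x hx
    rw [Subgroup.mem_comap]
    exact R.X_le_U (pos_of_inner R hw hd h) ((R.X_nw hd).mpr hx)
  refine ⟨R.U.comap (MulAut.conj (R.nw w)).toMonoidHom,
    hU.comap_of_injective _ (MulAut.conj (R.nw w)).injective, hX b hb h1, hX c hc h2, ?_⟩
  rintro d hd ⟨p, q, hp, hq, hpq⟩
  apply hX d hd
  rw [hpq, inner_add_right, real_inner_smul_right, real_inner_smul_right]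
  have h3 : 0 < p * inner ℝ η b := mul_pos (by linarith) h1
  have h4 : 0 < q * inner ℝ η c := mul_pos (by linarith) h2
  linarith

end geo

section main

variable {ℓ : ℕ} [Fact ℓ.Prime] {S M : Type} [Group S] [Finite S] [Group M] [Finite M]

theorem map_biSup2 (R : RGD ℓ S) {π : M →* S} (hs : Function.Surjective π)
    (hc : π.ker ≤ Subgroup.center M) (hk : ¬ ℓ ∣ Nat.card π.ker) (A : Set R.E) (hA : A ⊆ R.Φ) :
    (⨆ b ∈ A, lf ℓ π (R.X b)).map π = ⨆ b ∈ A, R.X b := by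
  simp only [Subgroup.map_iSup]
  exact iSup_congr fun b => iSup_congr fun hb => map_lf hc hk hs (R.pgrp b (hA hb))

theorem exists_n (R : RGD ℓ S) {π : M →* S} (hs : Function.Surjective π)
    (hc : π.ker ≤ Subgroup.center M) (hk : ¬ ℓ ∣ Nat.card π.ker) :
    ∃ n : Fin R.r → M, ∀ i, π (n i) = R.n i ∧
      n i ∈ lf ℓ π (R.X (R.a i)) ⊔ lf ℓ π (R.X (-R.a i)) := by
  have h : ∀ i, ∃ g : M, π g = R.n i ∧ g ∈ lf ℓ π (R.X (R.a i)) ⊔ lf ℓ π (R.X (-R.a i)) := by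
    intro i
    have h1 : (lf ℓ π (R.X (R.a i)) ⊔ lf ℓ π (R.X (-R.a i))).map π =
        R.X (R.a i) ⊔ R.X (-R.a i) := by
      rw [Subgroup.map_sup, map_lf hc hk hs (R.pgrp _ (R.mem i)),
        map_lf hc hk hs (R.pgrp _ (R.neg_a_mem i))]
    have h2 := R.nmem i
    rw [← h1] at h2
    obtain ⟨g, hg, h3⟩ := h2
    exact ⟨g, h3, hg⟩
  exact ⟨fun i => (h i).choose, fun i => (h i).choose_spec⟩

/-- the lifted root group datum -/
def lftD (dom : DomStmt) (upg : UpgStmt) (clo : CloStmt) (R : RGD ℓ S) {π : M →* S}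
    (hs : Function.Surjective π) (hc : π.ker ≤ Subgroup.center M) (hk : ¬ ℓ ∣ Nat.card π.ker)
    (n : Fin R.r → M) (hn : ∀ i, π (n i) = R.n i ∧
      n i ∈ lf ℓ π (R.X (R.a i)) ⊔ lf ℓ π (R.X (-R.a i))) : RGD ℓ M where
  m := R.m
  r := R.r
  a := R.a
  Φ := R.Φ
  X := fun b => lf ℓ π (R.X b)
  T := R.T.comap π
  n := n
  fin := R.fin
  base := R.base
  mem := R.mem
  ne0 := R.ne0
  sgn := R.sgn
  refl := R.refl
  short := R.short
  pgrp := fun b hb => lf_pgrp hc hk hs (R.pgrp b hb)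
  nt := by
    intro i h
    apply R.nt i
    rw [← map_lf hc hk hs (R.pgrp _ (R.mem i)), h, Subgroup.map_bot]
  nest := fun b hb c hc hcb => lf_mono (R.nest b hb c hc hcb)
  cop := by
    intro h
    obtain ⟨⟨x, hx⟩, hx1⟩ := exists_prime_orderOf_dvd_card' ℓ h
    rw [Subgroup.orderOf_mk] at hx1
    have h2 : x ^ (ℓ ^ 1) = 1 := by rw [pow_one, ← hx1, pow_orderOf_eq_one]
    have h3 : π x = 1 := by
      refine eq_one_of_cop R.cop (x := π x) hx (k := 1) ?_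
      rw [← map_pow, h2, map_one]
    have h4 : x = 1 := eq_one_of_cop hk (x := x) h3 h2
    rw [h4, orderOf_one] at hx1
    exact (Fact.out : ℓ.Prime).one_lt.ne hx1
  tX := by
    intro t ht b hb x hx
    exact lf_conj (fun y hy => R.tX _ ht b hb y hy) hx
  nX := by
    intro i b hb x hx
    refine lf_conj (fun y hy => ?_) hx
    rw [(hn i).1]
    exact R.nX i b hb y hy
  nT := by
    intro i t ht
    rw [Subgroup.mem_comap] at ht ⊢
    rw [map_mul, map_mul, map_inv, (hn i).1]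
    exact R.nT i _ ht
  nn := by
    intro i
    rw [Subgroup.mem_comap, map_mul, (hn i).1]
    exact R.nn i
  nmem := fun i => (hn i).2
  comm := by
    intro b hb c hc' hbc x hx y hy
    obtain ⟨P, hP, hPb, hPc, hPd⟩ := exists_pgrp dom upg clo R hb hc' hbc
    have h1 : π (x * y * x⁻¹ * y⁻¹) ∈
        ⨆ d ∈ {d ∈ R.Φ | ∃ p q : ℝ, 1 ≤ p ∧ 1 ≤ q ∧ d = p • b + q • c}, R.X d := by
      have h2 := R.comm b hb c hc' hbc (π x) ((mem_lf hc hk hs (R.pgrp b hb)).mp hx).1 (π y)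
        ((mem_lf hc hk hs (R.pgrp c hc')).mp hy).1
      simpa using h2
    rw [← map_biSup2 R hs hc hk _ fun d hd => hd.1] at h1
    obtain ⟨w, hw, hw1⟩ := h1
    have h3 : (⨆ d ∈ {d ∈ R.Φ | ∃ p q : ℝ, 1 ≤ p ∧ 1 ≤ q ∧ d = p • b + q • c},
        lf ℓ π (R.X d)) ≤ lf ℓ π P := iSup₂_le fun d hd => lf_mono (hPd d hd.1 hd.2)
    have hx' : x ∈ lf ℓ π P := lf_mono hPb hx
    have hy' : y ∈ lf ℓ π P := lf_mono hPc hy
    have h4 : x * y * x⁻¹ * y⁻¹ ∈ lf ℓ π P :=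
      mul_mem (mul_mem (mul_mem hx' hy') (inv_mem hx')) (inv_mem hy')
    have h5 : w⁻¹ * (x * y * x⁻¹ * y⁻¹) = 1 := by
      refine lf_inj hc hk hs hP (mul_mem (inv_mem (h3 hw)) h4) ?_
      rw [map_mul, map_inv, hw1, inv_mul_cancel]
    rw [← eq_of_inv_mul_eq_one h5]
    exact hw
  cell := by
    intro i x hx hx1
    have h1 := (mem_lf hc hk hs (R.pgrp _ (R.mem i))).mp hx
    have h2 : π x ≠ 1 := fun h => hx1 (lf_inj hc hk hs (R.pgrp _ (R.mem i)) hx h)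
    obtain ⟨y, hy, z, hz, t, ht, h3⟩ := R.cell i (π x) h1.1 h2
    rw [← map_lf hc hk hs (R.pgrp _ (R.mem i))] at hy hz
    obtain ⟨y', hy', rfl⟩ := hy
    obtain ⟨z', hz', rfl⟩ := hz
    refine ⟨y', hy', z', hz', (n i)⁻¹ * (y'⁻¹ * (n i * x * (n i)⁻¹) * z'⁻¹), ?_, by group⟩
    rw [Subgroup.mem_comap]
    simp only [map_mul, map_inv, (hn i).1]
    rw [h3]
    have h4 : (R.n i)⁻¹ * ((π y')⁻¹ * (π y' * (R.n i * t) * π z') * (π z')⁻¹) = t := by group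
    rwa [h4]
  opp := by
    rw [eq_bot_iff]
    intro x hx
    have h1 : (⨆ b ∈ {b ∈ R.Φ | Nn R.a b}, lf ℓ π (R.X b)) ≤ lf ℓ π R.U :=
      iSup₂_le fun b hb => lf_mono (R.X_le_U hb)
    have hU : IsPGroup ℓ R.U := upg ℓ S R R.pos (clo ℓ S R).1 subset_rfl
    have h2 : π x ∈ (⊥ : Subgroup S) := by
      rw [← R.opp]
      refine ⟨?_, ?_⟩
      · change π x ∈ ⨆ b ∈ {b ∈ R.Φ | Nn R.a b}, R.X b
        rw [← map_biSup2 R hs hc hk _ fun d hd => hd.1]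
        exact ⟨x, hx.1, rfl⟩
      · change π x ∈ R.T ⊔ ⨆ b ∈ {b ∈ R.Φ | Nn R.a (-b)}, R.X b
        rw [← map_biSup2 R hs hc hk _ fun d hd => hd.1,
          ← Subgroup.map_comap_eq_self_of_surjective hs R.T, ← Subgroup.map_sup]
        exact ⟨x, hx.2, rfl⟩
    rw [Subgroup.mem_bot] at h2 ⊢
    exact lf_inj hc hk hs hU (h1 hx.1) h2
  gen := by
    rw [eq_top_iff]
    intro g _
    have h1 : π g ∈ (R.T.comap π ⊔ ⨆ b ∈ R.Φ, lf ℓ π (R.X b)).map π := by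
      rw [Subgroup.map_sup, map_biSup2 R hs hc hk _ subset_rfl,
        Subgroup.map_comap_eq_self_of_surjective hs R.T, R.gen]
      exact Subgroup.mem_top _
    obtain ⟨w, hw, hw1⟩ := h1
    have h2 : w⁻¹ * g ∈ R.T.comap π := by
      rw [Subgroup.mem_comap, map_mul, map_inv, hw1, inv_mul_cancel]
      exact R.T.one_mem
    have h3 := mul_mem hw (le_sup_left (b := ⨆ b ∈ R.Φ, lf ℓ π (R.X b)) h2)
    rwa [mul_inv_cancel_left] at h3

end main

theorem lft (dom : DomStmt) (upg : UpgStmt) (clo : CloStmt) : LftStmt := by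
  intro ℓ hℓ S M _ _ _ _ hR π hs hc hk
  obtain ⟨R⟩ := hR
  obtain ⟨n, hn⟩ := exists_n R hs hc hk
  refine ⟨lftD dom upg clo R hs hc hk n hn, ?_, ?_⟩
  · intro z hz
    change π z ∈ R.T
    rw [hz]
    exact R.T.one_mem
  · intro h hU
    have h1 : ∀ b ∈ R.pos, R.X b = ⊥ := by
      intro b hb
      have h2 : lf ℓ π (R.X b) ≤ (lftD dom upg clo R hs hc hk n hn).U :=
        (lftD dom upg clo R hs hc hk n hn).X_le_U (b := b) hb
      rw [hU, le_bot_iff] at h2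
      rw [← map_lf hc hk hs (R.pgrp b hb.1), h2, Subgroup.map_bot]
    have h3 : IsEmpty (Fin R.r) := ⟨fun i => R.nt i (h1 _ (R.a_pos i))⟩
    have h4 : R.Φ = ∅ := by
      rw [Set.eq_empty_iff_forall_notMem]
      intro b hb
      apply R.ne0 b hb
      rcases R.sgn b hb with ⟨k, -, hk1⟩ | ⟨k, -, hk1⟩
      · rw [hk1, Finset.univ_eq_empty, Finset.sum_empty]
      · rw [Finset.univ_eq_empty, Finset.sum_empty] at hk1
        exact neg_eq_zero.mp hk1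
    have h5 := R.gen
    rw [h4] at h5
    simp only [Set.mem_empty_iff_false, not_false_eq_true, iSup_neg, iSup_bot, sup_bot_eq] at h5
    apply R.cop
    rw [h5, Subgroup.card_top]
    exact h

end Pool.Agent.PP.X1.H77
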