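import Pool.Agent.Helper36_X1.Stmts3

/-!
# QUO: the root group datum of a quotient by a subgroup of the torus
-/

open scoped BigOperators

noncomputable section

namespace Pool.Agent.PP.X1.H77

open Pool.Agent.PP.X1

variable {ℓ : ℕ} {G G' : Type} [Group G] [Group G'] (R : RGD ℓ G) (π : G →* G')

theorem map_biSup (A : Set R.E) :
    (⨆ b ∈ A, R.X b).map π = ⨆ b ∈ A, (R.X b).map π := by
  simp only [Subgroup.map_iSup]

theorem map_biSup' (A : R.E → Prop) :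
    (⨆ b ∈ {b | A b}, R.X b).map π = ⨆ b ∈ {b | A b}, (R.X b).map π :=
  map_biSup R π {b | A b}

/-- the images of the root groups are a root group datum of the quotient -/
def quoD (hs : Function.Surjective π) (hk : π.ker ≤ R.T) : RGD ℓ G' where
  m := R.m
  r := R.r
  a := R.a
  Φ := R.Φ
  X := fun b => (R.X b).map π
  T := R.T.map π
  n := fun i => π (R.n i)
  fin := R.fin
  base := R.base
  mem := R.mem
  ne0 := R.ne0
  sgn := R.sgn
  refl := R.refl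
  short := R.short
  pgrp := fun b hb => (R.pgrp b hb).map π
  nt := by
    intro i h
    apply R.nt i
    rw [Subgroup.map_eq_bot_iff] at h
    rw [eq_bot_iff, ← R.opp]
    refine le_inf (R.X_le_U (R.a_pos i)) ((h.trans hk).trans le_sup_left)
  nest := fun b hb c hc hcb => Subgroup.map_mono (R.nest b hb c hc hcb)
  cop := fun h => R.cop (h.trans (Subgroup.card_map_dvd R.T π))
  tX := by
    rintro _ ⟨t, ht, rfl⟩ b hb _ ⟨x, hx, rfl⟩
    exact ⟨t * x * t⁻¹, R.tX t ht b hb x hx, by simp⟩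
  nX := by
    rintro i b hb _ ⟨x, hx, rfl⟩
    exact ⟨R.n i * x * (R.n i)⁻¹, R.nX i b hb x hx, by simp⟩
  nT := by
    rintro i _ ⟨t, ht, rfl⟩
    exact ⟨R.n i * t * (R.n i)⁻¹, R.nT i t ht, by simp⟩
  nn := fun i => ⟨R.n i * R.n i, R.nn i, by simp⟩
  nmem := by
    intro i
    rw [← Subgroup.map_sup]
    exact ⟨R.n i, R.nmem i, rfl⟩
  comm := by
    rintro b hb c hc hbc _ ⟨x, hx, rfl⟩ _ ⟨y, hy, rfl⟩
    rw [← map_biSup R π]
    exact ⟨x * y * x⁻¹ * y⁻¹, R.comm b hb c hc hbc x hx y hy, by simp⟩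
  cell := by
    rintro i _ ⟨x, hx, rfl⟩ h1
    have hx1 : x ≠ 1 := fun h => h1 (by rw [h, map_one])
    obtain ⟨y, hy, z, hz, t, ht, h⟩ := R.cell i x hx hx1
    refine ⟨π y, ⟨y, hy, rfl⟩, π z, ⟨z, hz, rfl⟩, π t, ⟨t, ht, rfl⟩, ?_⟩
    rw [← map_mul, ← map_inv, ← map_mul, h]
    simp only [map_mul]
  opp := by
    rw [← map_biSup R π, ← map_biSup R π, ← Subgroup.map_sup, eq_bot_iff]
    rintro _ ⟨⟨u, hu, rfl⟩, ⟨w, hw, hwu⟩⟩
    have h1 : w⁻¹ * u ∈ π.ker := by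
      rw [MonoidHom.mem_ker, map_mul, map_inv, hwu, inv_mul_cancel]
    have h2 : u ∈ R.T ⊔ ⨆ b ∈ {b ∈ R.Φ | Nn R.a (-b)}, R.X b := by
      have h3 := mul_mem hw (le_sup_left (b := ⨆ b ∈ {b ∈ R.Φ | Nn R.a (-b)}, R.X b) (hk h1))
      rwa [mul_inv_cancel_left] at h3
    have h4 : u ∈ (⊥ : Subgroup G) := by
      rw [← R.opp]
      exact ⟨hu, h2⟩
    rw [Subgroup.mem_bot] at h4 ⊢
    rw [h4, map_one]
  gen := by
    rw [← map_biSup R π, ← Subgroup.map_sup, R.gen]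
    exact Subgroup.map_top_of_surjective π hs

theorem quo : QuoStmt := fun _ _ _ _ _ R π hs hk => ⟨quoD R π hs hk⟩

end Pool.Agent.PP.X1.H77
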